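import Pool.Agent.W401.FL.Defs
import Mathlib.FieldTheory.IsAlgClosed.Classification
import Mathlib.Topology.Algebra.Module.Cardinality

/-!
# FL-ISO: embeddings of countable subfields extend to isomorphisms
-/

set_option autoImplicit false

namespace Pool.Agent.W739.FL

open Cardinal

section general

variable {R L K : Type} [Field R] [Field K] [Algebra R K] [Field L] [Algebra R L]

/-- Two algebraically closed extensions with equipotent transcendence bases are isomorphic over the
base. -/
theorem exists_equiv_of_basis {ι κ : Type} (v : ι → K) (w : κ → L) [IsAlgClosed K] [IsAlgClosed L]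
    (e : ι ≃ κ) (hv : IsTranscendenceBasis R v) (hw : IsTranscendenceBasis R w) :
    ∃ f : K ≃+* L, ∀ r : R, f (algebraMap R K r) = algebraMap R L r := by
  let _ := IsAlgClosed.isAlgClosure_of_transcendence_basis v hv
  let _ := IsAlgClosed.isAlgClosure_of_transcendence_basis w hw
  let e₁ : Algebra.adjoin R (Set.range v) ≃ₐ[R] Algebra.adjoin R (Set.range w) :=
    hv.1.aevalEquiv.symm.trans ((MvPolynomial.renameEquiv R e).trans hw.1.aevalEquiv)
  refine ⟨IsAlgClosure.equivOfEquiv K L e₁.toRingEquiv, fun r => ?_⟩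
  have h1 : algebraMap R K r =
      algebraMap (Algebra.adjoin R (Set.range v)) K (algebraMap R _ r) := rfl
  rw [h1, IsAlgClosure.equivOfEquiv_algebraMap]
  have h2 : e₁.toRingEquiv (algebraMap R _ r) = algebraMap R _ r :=
    e₁.commutes r
  rw [h2]
  rfl

theorem exists_equiv_of_card [IsAlgClosed K] [IsAlgClosed L] [FaithfulSMul R K] [FaithfulSMul R L]
    (hR : #R ≤ ℵ₀) (hK : ℵ₀ < #K) (hKL : #K = #L) :
    ∃ f : K ≃+* L, ∀ r : R, f (algebraMap R K r) = algebraMap R L r := by
  obtain ⟨s, hs⟩ := exists_isTranscendenceBasis R K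
  obtain ⟨t, ht⟩ := exists_isTranscendenceBasis R L
  have h1 := IsAlgClosed.cardinal_eq_cardinal_transcendence_basis_of_aleph0_lt' _ hs hR hK
  have h2 := IsAlgClosed.cardinal_eq_cardinal_transcendence_basis_of_aleph0_lt' _ ht hR
    (by rw [← hKL]; exact hK)
  obtain ⟨e⟩ := Cardinal.eq.1 (h1.symm.trans (hKL.trans h2))
  exact exists_equiv_of_basis _ _ e hs ht

end general

variable (p : ℕ) [Fact p.Prime]

theorem card_padic : #ℚ_[p] = 𝔠 := by
  refine le_antisymm ?_ (continuum_le_cardinal_of_nontriviallyNormedField _)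
  have h1 : #ℚ_[p] ≤ #(CauSeq ℚ (padicNorm p)) := Cardinal.mk_quotient_le
  have h2 : #(CauSeq ℚ (padicNorm p)) ≤ #(ℕ → ℚ) := Cardinal.mk_subtype_le _
  refine h1.trans (h2.trans ?_)
  simp

theorem card_alg : #(PadicAlgCl p) = 𝔠 := by
  apply le_antisymm
  · have := Algebra.IsAlgebraic.cardinalMk_le_max ℚ_[p] (PadicAlgCl p)
    rw [card_padic, max_eq_left Cardinal.aleph0_le_continuum] at this
    exact this
  · have h := Cardinal.mk_le_of_injective (FaithfulSMul.algebraMap_injective ℚ_[p] (PadicAlgCl p))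
    rwa [card_padic] at h

theorem main : Pool.Agent.W401.FL.TaskIso := by
  intro p hp M hM τ
  let _ : Algebra M (PadicAlgCl p) := τ.toAlgebra
  obtain ⟨f, hf⟩ := exists_equiv_of_card (R := M) (K := ℂ) (L := PadicAlgCl p)
    (Cardinal.mk_le_aleph0_iff.2 hM) (by rw [Cardinal.mk_complex]; exact Cardinal.aleph0_lt_continuum)
    (by rw [Cardinal.mk_complex, card_alg])
  exact ⟨f, hf⟩

end Pool.Agent.W739.FL
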